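import Pool.Agent.N370.SQ.Short

/-!
# (1,1,2,2)-packing colourings of cubic graphs with a short cycle at every vertex

Answer to Q1 of MP_b56abb_co: yes.  A cubic graph in which every vertex lies on a cycle of
length 3 or on a cycle of length 4 is (1,1,2,2)-packing colourable.

Outline.  Call a triangle isolated if none of its vertices is on a 4-cycle.  Take a 2-colouring
`c` of the vertices with the minimum total weight of monochromatic edges, where edges of 4-cycles
weigh 22, edges of isolated triangles weigh 10, the other edges at isolated triangles weigh 21 and
all other edges weigh 20; among these colourings take one with the minimum number of
monochromatic isolated triangles which do not have two vertices whose neighbours outside the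
triangle are in no isolated triangle.  Then

* the monochromatic edges which are not in isolated triangles form a matching; each of them has
  both ends on 4-cycles or joins a vertex on a 4-cycle to a vertex on none, and in the second
  case the end on a 4-cycle is removed;
* for the monochromatic edges with both ends on 4-cycles (one end is removed) and the
  monochromatic isolated triangles (two vertices are removed), the ends and the labels are found
  from a 2-colouring of the union of two matchings, as each end is in at most one conflict;
* in each other isolated triangle one vertex of the majority colour is removed, the choice being
  made by a maximality argument with a count of majority and minority vertices.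

Removed vertices at distance at most 2 get different labels, so they form two 2-packings; the
vertices which are left form two independent sets.
-/

set_option autoImplicit false

namespace Pool.Agent.Results.MP_b56abb_co.ShortCycles

open Pool.Agent.N370.CF Pool.Agent.N370.SQ

theorem result (V : Type*) [Fintype V] (G : SimpleGraph V) [DecidableRel G.Adj]
    (hcubic : G.IsRegularOfDegree 3)
    (hcycle : ∀ v : V, ∃ p : G.Walk v v, p.IsCycle ∧ (p.length = 3 ∨ p.length = 4)) :
    PackingColourable G ![1, 1, 2, 2] :=
  colourable_of_short (cub_of hcubic) (short_of hcycle)

end Pool.Agent.Results.MP_b56abb_co.ShortCycles
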